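import Pool.Agent.Run7.h831.HS.Data

set_option autoImplicit false

namespace Run7.h831.HS

theorem c_two : ∀ p q : Fin 280, p ≠ q → (mk p &&& mk q) &&& ((mk p &&& mk q) - 1) = 0 := by
  decide +kernel

theorem c_gq : ∀ (p : Fin 280) (l : Fin 112), (mk p).testBit l = false →
    (mk p &&& ak l) ≠ 0 ∧ (mk p &&& ak l) &&& ((mk p &&& ak l) - 1) = 0 := by
  decide +kernel

end Run7.h831.HS
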