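import Pool.Agent.Run7.h831.HS.Data

set_option autoImplicit false

namespace Run7.h831.HS

/-- number of `i < n` with `f i = true` -/
def cntB (f : ℕ → Bool) : ℕ → ℕ
  | 0 => 0
  | n + 1 => cntB f n + cond (f n) 1 0

/-- the union of the sets of the lines on the points `q < n` of the line `l` -/
def orF (l : ℕ) : ℕ → ℕ
  | 0 => 0
  | n + 1 => cond ((mk n).testBit l) (orF l n ||| mk n) (orF l n)

theorem c_or : ∀ l : Fin 112, ak l = orF l 280 := by
  decide +kernel

theorem c_four : ∀ p : Fin 280, cntB (fun l => (mk p).testBit l) 112 = 4 := by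
  decide +kernel

theorem c_ten : ∀ l : Fin 112, cntB (fun p => (mk p).testBit l) 280 = 10 := by
  decide +kernel

theorem c_hemi : ∀ p : Fin 280, cntB (fun l => Hm.testBit l && (mk p).testBit l) 112 = 2 := by
  decide +kernel

theorem c_sg : ∀ l : Fin 112, Hm.testBit l = true →
    sg l < 112 ∧ Hm.testBit (sg l) = true ∧ si (sg l) = l := by
  decide +kernel

theorem c_si : ∀ l : Fin 112, Hm.testBit l = true →
    si l < 112 ∧ Hm.testBit (si l) = true ∧ sg (si l) = l := by
  decide +kernel

theorem c_adj : ∀ l m : Fin 112, Hm.testBit l = true → Hm.testBit m = true →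
    (ak l).testBit m = (ak (sg l)).testBit (sg m) := by
  decide +kernel

theorem c_not : ∀ y : Fin 112, ∃ l : Fin 112, Hm.testBit l = true ∧
    (ak 8).testBit l ≠ (ak y).testBit (sg l) := by
  decide +kernel

end Run7.h831.HS
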