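import Pool.Agent.Run7.h831.HS.Chk
import Pool.Agent.Run7.h831.HS.Chk2

set_option autoImplicit false

namespace Run7.h831.HS

/-- the point `p` is on the line `l` -/
def Inc (p : Fin 280) (l : Fin 112) : Prop := (mk p).testBit l = true

/-- the hemisystem -/
def HH : Set (Fin 112) := {l | Hm.testBit l = true}

theorem card_cntB (n : ℕ) (f : ℕ → Bool) :
    Nat.card {i : Fin n // f i = true} = cntB f n := by
  classical
  rw [Nat.card_eq_fintype_card, Fintype.card_subtype, Finset.card_filter]
  induction n with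
  | zero => rfl
  | succ n ih =>
    rw [Fin.sum_univ_castSucc]
    simp only [Fin.val_castSucc, Fin.val_last]
    rw [ih, cntB]
    by_cases h : f n = true
    · simp [h]
    · simp [h]

/-- at most one bit -/
theorem one_bit (x i j : ℕ) (hx : x &&& (x - 1) = 0) (hi : x.testBit i = true)
    (hj : x.testBit j = true) : i = j := by
  have key : ∀ i j : ℕ, i < j → x.testBit i = true → x.testBit j = true → False := by
    intro i j hij hi hj
    have h1 : x % 2 ^ j ≠ 0 := by
      intro h0
      have h2 : (x % 2 ^ j).testBit i = true := by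
        rw [Nat.testBit_mod_two_pow]; simp [hij, hi]
      rw [h0] at h2
      simp at h2
    have hx0 : x ≠ 0 := by
      rintro rfl
      simp at hi
    have h3 : (x - 1) / 2 ^ j = x / 2 ^ j := by
      have hp : 0 < 2 ^ j := by positivity
      have e : x = 2 ^ j * (x / 2 ^ j) + x % 2 ^ j := (Nat.div_add_mod x (2 ^ j)).symm
      have hlt : x % 2 ^ j < 2 ^ j := Nat.mod_lt _ hp
      generalize x / 2 ^ j = d at e ⊢
      generalize x % 2 ^ j = r at e h1 hlt ⊢
      have e2 : x - 1 = 2 ^ j * d + (r - 1) := by omega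
      rw [e2, Nat.mul_add_div hp, Nat.div_eq_of_lt (by omega), Nat.add_zero]
    have h4 : (x - 1).testBit j = true := by
      rw [Nat.testBit_eq_decide_div_mod_eq, h3, ← Nat.testBit_eq_decide_div_mod_eq]
      exact hj
    have h5 : (x &&& (x - 1)).testBit j = true := by
      rw [Nat.testBit_and, hj, h4]; rfl
    rw [hx] at h5
    simp at h5
  rcases lt_trichotomy i j with h | h | h
  · exact (key i j h hi hj).elim
  · exact h
  · exact (key j i h hj hi).elim

theorem orF_bit (l m n : ℕ) :
    (orF l n).testBit m = true ↔ ∃ q < n, (mk q).testBit l = true ∧ (mk q).testBit m = true := by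
  induction n with
  | zero => simp [orF]
  | succ n ih =>
    rw [orF]
    constructor
    · intro h
      cases hb : (mk n).testBit l with
      | false =>
        rw [hb] at h
        obtain ⟨q, hq, h'⟩ := ih.1 h
        exact ⟨q, by omega, h'⟩
      | true =>
        rw [hb] at h
        simp only [cond_true, Nat.testBit_or, Bool.or_eq_true] at h
        rcases h with h | h
        · obtain ⟨q, hq, h'⟩ := ih.1 h
          exact ⟨q, by omega, h'⟩
        · exact ⟨n, by omega, hb, h⟩
    · rintro ⟨q, hq, h1, h2⟩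
      rcases Nat.lt_succ_iff_lt_or_eq.1 hq with hq | rfl
      · have h3 := ih.2 ⟨q, hq, h1, h2⟩
        cases hb : (mk n).testBit l with
        | false => exact h3
        | true => simp [Nat.testBit_or, h3]
      · rw [h1]
        simp [Nat.testBit_or, h2]

theorem meet_iff (l m : Fin 112) : (ak l).testBit m = true ↔ ∃ q, Inc q l ∧ Inc q m := by
  rw [c_or, orF_bit]
  constructor
  · rintro ⟨q, hq, h⟩
    exact ⟨⟨q, hq⟩, h⟩
  · rintro ⟨q, h⟩
    exact ⟨q, q.2, h⟩

theorem two_points (p q : Fin 280) (hpq : p ≠ q) (l m : Fin 112) (h1 : Inc p l) (h2 : Inc q l)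
    (h3 : Inc p m) (h4 : Inc q m) : l = m := by
  apply Fin.ext
  apply one_bit _ _ _ (c_two p q hpq)
  · rw [Nat.testBit_and]
    unfold Inc at h1 h2
    rw [h1, h2]; rfl
  · rw [Nat.testBit_and]
    unfold Inc at h3 h4
    rw [h3, h4]; rfl

theorem gq_axiom (p : Fin 280) (l : Fin 112) (h : ¬ Inc p l) :
    ∃! q, Inc q l ∧ ∃ m, Inc p m ∧ Inc q m := by
  have h0 : (mk p).testBit l = false := by
    cases hb : (mk p).testBit l
    · rfl
    · exact (h hb).elim
  obtain ⟨h1, h2⟩ := c_gq p l h0
  obtain ⟨i, hi⟩ := Nat.exists_testBit_of_ne_zero h1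
  rw [Nat.testBit_and, Bool.and_eq_true] at hi
  have hi' : i < 112 := by
    by_contra hc
    have h5 : (mk p).testBit i = false := by
      apply Nat.testBit_lt_two_pow
      calc mk p < 2 ^ 112 := Nat.mod_lt _ (by positivity)
        _ ≤ 2 ^ i := Nat.pow_le_pow_right (by norm_num) (by omega)
    rw [h5] at hi
    exact Bool.false_ne_true hi.1
  have hm := (meet_iff l ⟨i, hi'⟩).1 hi.2
  obtain ⟨q, hq1, hq2⟩ := hm
  refine ⟨q, ⟨hq1, ⟨i, hi'⟩, hi.1, hq2⟩, ?_⟩
  rintro r ⟨hr1, m, hm1, hm2⟩
  have hmi : m = ⟨i, hi'⟩ := by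
    apply Fin.ext
    apply one_bit _ _ _ h2
    · rw [Nat.testBit_and, Bool.and_eq_true]
      exact ⟨hm1, (meet_iff l m).2 ⟨r, hr1, hm2⟩⟩
    · rw [Nat.testBit_and, Bool.and_eq_true]
      exact hi
  subst hmi
  by_contra hne
  have := two_points r q hne l ⟨i, hi'⟩ hr1 hq1 hm2 hq2
  subst this
  exact h hm1

end Run7.h831.HS
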